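import Pool.Agent.MRDP.Basic

/-!
# Bounded universal quantification preserves Diophantine sets
-/

set_option autoImplicit false

namespace Pool.Agent.MRDP

open Finset Dioph

/-! ## Polynomials: support, congruences, majorants -/

theorem isPoly_data {γ : Type} {f : (γ → ℕ) → ℤ} (hf : IsPoly f) :
    ∃ (J : Finset γ) (G : (γ → ℕ) → ℕ), DiophFn G ∧
      (∀ (m : ℤ) (x y : γ → ℕ), (∀ j ∈ J, (x j : ℤ) ≡ y j [ZMOD m]) → f x ≡ f y [ZMOD m]) ∧
      (∀ x y : γ → ℕ, (∀ j ∈ J, x j ≤ y j) → |f x| ≤ G y) := by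
  classical
  induction hf with
  | proj i =>
    refine ⟨{i}, fun y => y i, proj_dioph i, ?_, ?_⟩
    · intro m x y h
      exact h i (by simp)
    · intro x y h
      have := h i (by simp)
      simpa using this
  | const n =>
    refine ⟨∅, fun _ => n.natAbs, const_dioph _, ?_, ?_⟩
    · intro m x y _
      rfl
    · intro x y _
      simp
  | sub _ _ ihf ihg =>
    obtain ⟨J1, G1, d1, c1, m1⟩ := ihf
    obtain ⟨J2, G2, d2, c2, m2⟩ := ihg
    refine ⟨J1 ∪ J2, fun y => G1 y + G2 y, add_dioph d1 d2, ?_, ?_⟩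
    · intro m x y h
      exact Int.ModEq.sub (c1 m x y fun j hj => h j (mem_union_left _ hj))
        (c2 m x y fun j hj => h j (mem_union_right _ hj))
    · intro x y h
      have h1 := m1 x y fun j hj => h j (mem_union_left _ hj)
      have h2 := m2 x y fun j hj => h j (mem_union_right _ hj)
      push_cast
      exact (abs_sub _ _).trans (add_le_add h1 h2)
  | mul _ _ ihf ihg =>
    obtain ⟨J1, G1, d1, c1, m1⟩ := ihf
    obtain ⟨J2, G2, d2, c2, m2⟩ := ihg
    refine ⟨J1 ∪ J2, fun y => G1 y * G2 y, mul_dioph d1 d2, ?_, ?_⟩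
    · intro m x y h
      exact Int.ModEq.mul (c1 m x y fun j hj => h j (mem_union_left _ hj))
        (c2 m x y fun j hj => h j (mem_union_right _ hj))
    · intro x y h
      have h1 := m1 x y fun j hj => h j (mem_union_left _ hj)
      have h2 := m2 x y fun j hj => h j (mem_union_right _ hj)
      push_cast
      rw [abs_mul]
      exact mul_le_mul h1 h2 (abs_nonneg _) (by positivity)

/-- The point with bounded variable `i`, parameters `v` and auxiliary variables `t`. -/
def pt {α β : Type} (i : ℕ) (v : α → ℕ) (t : β → ℕ) : Option α ⊕ β → ℕ :=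
  Sum.elim (Option.elim' i v) t

section

variable {α β : Type} {f : (Option α ⊕ β → ℕ) → ℤ} {J : Finset (Option α ⊕ β)}
  {G : (Option α ⊕ β → ℕ) → ℕ}
  (hc : ∀ (m : ℤ) (x y : Option α ⊕ β → ℕ),
    (∀ j ∈ J, (x j : ℤ) ≡ y j [ZMOD m]) → f x ≡ f y [ZMOD m])
  (hm : ∀ x y : Option α ⊕ β → ℕ, (∀ j ∈ J, x j ≤ y j) → |f x| ≤ G y)

include hc hm in
theorem bq_sound (v : α → ℕ) (n u c Q N : ℕ) (a : β → ℕ)
    (hG : G (pt n v (fun _ => u)) ≤ Q) (hu : u ≤ Q)
    (hN : N = prodF n Q.factorial) (hcN : N ∣ (c + 1) * Q.factorial + 1)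
    (hf : (N : ℤ) ∣ f (pt c v a))
    (ha : ∀ j, Sum.inr j ∈ J → N ∣ (a j).descFactorial (u + 1)) :
    ∀ i < n, ∃ t : β → ℕ, f (pt i v t) = 0 := by
  intro i hi
  set mi := (i + 1) * Q.factorial + 1 with hmi
  have hmN : mi ∣ N := by
    rw [hN]
    exact dvd_prod_of_mem (fun i => (i + 1) * Q.factorial + 1) (mem_range.mpr hi)
  have hm1 : mi ≠ 1 := by
    have := Nat.factorial_pos Q
    have : 0 < (i + 1) * Q.factorial := Nat.mul_pos (by omega) this
    omega
  set p := mi.minFac with hp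
  have pp : p.Prime := Nat.minFac_prime hm1
  have hpm : p ∣ mi := Nat.minFac_dvd mi
  have hpN : p ∣ N := hpm.trans hmN
  have hpQ : Q < p := by
    by_contra hcon
    have h1 : p ∣ Q.factorial := (Nat.Prime.dvd_factorial pp).mpr (by omega)
    have h2 : p ∣ 1 := by
      have h3 : p ∣ (i + 1) * Q.factorial := h1.mul_left _
      exact (Nat.dvd_add_right h3).mp hpm
    exact pp.one_lt.ne' (Nat.dvd_one.mp h2)
  have hpF : ¬ p ∣ Q.factorial := by
    intro h
    have := (Nat.Prime.dvd_factorial pp).mp h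
    omega
  -- c ≡ i mod p
  have hci : (c : ℤ) ≡ i [ZMOD p] := by
    have h1 : (p : ℤ) ∣ ((c + 1) * Q.factorial + 1 : ℤ) := by
      have := hpN.trans hcN
      exact_mod_cast this
    have h2 : (p : ℤ) ∣ ((i + 1) * Q.factorial + 1 : ℤ) := by
      exact_mod_cast hpm
    have h3 : (p : ℤ) ∣ ((i : ℤ) - c) * Q.factorial := by
      have := dvd_sub h2 h1
      have e : ((i + 1) * Q.factorial + 1 : ℤ) - ((c + 1) * Q.factorial + 1 : ℤ)
          = ((i : ℤ) - c) * Q.factorial := by ring
      rwa [e] at this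
    rcases Int.Prime.dvd_mul' pp h3 with h | h
    · exact (Int.modEq_iff_dvd).mpr h
    · exact absurd (by exact_mod_cast h) hpF
  refine ⟨fun j => a j % p, ?_⟩
  have hle : ∀ j, Sum.inr j ∈ J → a j % p ≤ u := by
    intro j hj
    have h1 : p ∣ (a j).descFactorial (u + 1) := hpN.trans (ha j hj)
    rw [Nat.descFactorial_eq_prod_range] at h1
    obtain ⟨l, hl, hpl⟩ := (Prime.dvd_finsetProd_iff pp.prime _).mp h1
    have hlu : l < u + 1 := mem_range.mp hl
    rcases le_or_gt l (a j) with h | h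
    · have h2 : l ≡ a j [MOD p] := (Nat.modEq_iff_dvd' h).mpr hpl
      have h3 : a j % p = l := by
        have : l % p = a j % p := h2
        rw [← this, Nat.mod_eq_of_lt (by omega)]
      omega
    · have := Nat.mod_le (a j) p
      omega
  have h1 : f (pt i v (fun j => a j % p)) ≡ f (pt c v a) [ZMOD p] := by
    apply hc
    rintro ((_ | _) | j) hj
    · exact hci.symm
    · rfl
    · simp only [pt, Sum.elim_inr]
      push_cast
      exact Int.mod_modEq _ _
  have h2 : (p : ℤ) ∣ f (pt i v (fun j => a j % p)) := by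
    have h3 : (p : ℤ) ∣ f (pt c v a) := dvd_trans (by exact_mod_cast hpN) hf
    exact (Int.ModEq.dvd_iff h1).mpr h3
  have h3 : |f (pt i v (fun j => a j % p))| ≤ G (pt n v (fun _ => u)) := by
    apply hm
    rintro ((_ | _) | j) hj
    · exact hi.le
    · exact le_rfl
    · exact hle j hj
  refine Int.eq_zero_of_abs_lt_dvd h2 ?_
  have : (G (pt n v (fun _ => u)) : ℤ) ≤ Q := by exact_mod_cast hG
  have : (Q : ℤ) < p := by exact_mod_cast hpQ
  omega

theorem mi_coprime {n Q : ℕ} (hn : n ≤ Q) :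
    Set.Pairwise (↑(range n) : Set ℕ)
      (Function.onFun Nat.Coprime fun i => (i + 1) * Q.factorial + 1) := by
  have key : ∀ i j : ℕ, i < j → j < n →
      Nat.Coprime ((i + 1) * Q.factorial + 1) ((j + 1) * Q.factorial + 1) := by
    intro i j hij hj
    apply Nat.coprime_mul_succ
    exact Nat.dvd_factorial (by omega) (by omega)
  intro i hi j hj hij
  simp only [coe_range, Set.mem_Iio] at hi hj
  rcases lt_or_gt_of_ne hij with h | h
  · exact key i j h hj
  · exact (key j i h hi).symm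

theorem crt {n Q : ℕ} (hn : n ≤ Q) (s : ℕ → ℕ) :
    ∃ c : ℕ, ∀ i < n, c ≡ s i [MOD (i + 1) * Q.factorial + 1] := by
  have := Nat.chineseRemainderOfFinset s (fun i => (i + 1) * Q.factorial + 1) (range n)
    (fun i _ => by positivity) (mi_coprime hn)
  exact ⟨this.1, fun i hi => this.2 i (mem_range.mpr hi)⟩

theorem prodF_dvd {n Q : ℕ} (hn : n ≤ Q) (z : ℕ)
    (h : ∀ i < n, (i + 1) * Q.factorial + 1 ∣ z) : prodF n Q.factorial ∣ z := by
  unfold prodF
  refine Finset.prod_dvd_of_isRelPrime ?_ fun i hi => h i (mem_range.mp hi)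
  intro i hi j hj hij
  exact Nat.coprime_iff_isRelPrime.mp (mi_coprime hn hi hj hij)

include hc in
theorem bq_complete (v : α → ℕ) (n : ℕ) (h : ∀ i < n, ∃ t : β → ℕ, f (pt i v t) = 0) :
    ∃ (u c Q N : ℕ) (a : β → ℕ),
      G (pt n v (fun _ => u)) ≤ Q ∧ u ≤ Q ∧
      N = prodF n Q.factorial ∧ N ∣ (c + 1) * Q.factorial + 1 ∧
      (N : ℤ) ∣ f (pt c v a) ∧
      ∀ j, Sum.inr j ∈ J → N ∣ (a j).descFactorial (u + 1) := by
  classical
  have h' : ∀ i, ∃ t : β → ℕ, i < n → f (pt i v t) = 0 := by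
    intro i
    by_cases hi : i < n
    · obtain ⟨t, ht⟩ := h i hi
      exact ⟨t, fun _ => ht⟩
    · exact ⟨fun _ => 0, fun h => absurd h hi⟩
  choose t ht using h'
  -- bound of the auxiliary values
  set u := (range n).sup fun i => J.sup fun j => Sum.elim (fun _ => 0) (t i) j with hu
  have hub : ∀ i < n, ∀ j, Sum.inr j ∈ J → t i j ≤ u := by
    intro i hi j hj
    calc t i j ≤ J.sup fun j => Sum.elim (fun _ => 0) (t i) j := by
          exact le_sup (f := fun j => Sum.elim (fun _ => 0) (t i) j) hj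
      _ ≤ u := le_sup (f := fun i => J.sup fun j => Sum.elim (fun _ => 0) (t i) j)
          (mem_range.mpr hi)
  set Q := G (pt n v (fun _ => u)) + u + n with hQ
  have hnQ : n ≤ Q := by omega
  obtain ⟨c, hcc⟩ := crt hnQ fun i => i
  have ha : ∀ j, ∃ x, ∀ i < n, x ≡ t i j [MOD (i + 1) * Q.factorial + 1] := fun j =>
    crt hnQ fun i => t i j
  choose a ha using ha
  refine ⟨u, c, Q, prodF n Q.factorial, a, by omega, by omega, rfl, ?_, ?_, ?_⟩
  · apply prodF_dvd hnQ
    intro i hi
    have h1 : (c + 1) * Q.factorial + 1 ≡ (i + 1) * Q.factorial + 1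
        [MOD (i + 1) * Q.factorial + 1] :=
      Nat.ModEq.add_right _ (Nat.ModEq.mul_right _ (Nat.ModEq.add_right _ (hcc i hi)))
    exact (Nat.ModEq.dvd_iff h1 (dvd_refl _)).mpr (dvd_refl _)
  · have h1 : prodF n Q.factorial ∣ (f (pt c v a)).natAbs := by
      apply prodF_dvd hnQ
      intro i hi
      have h2 : f (pt c v a) ≡ f (pt i v (t i)) [ZMOD ((i + 1) * Q.factorial + 1 : ℕ)] := by
        apply hc
        rintro ((_ | _) | j) hj
        · exact Int.natCast_modEq_iff.mpr (hcc i hi)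
        · rfl
        · exact Int.natCast_modEq_iff.mpr (ha j i hi)
      rw [ht i hi] at h2
      exact Int.natCast_dvd.mp (Int.modEq_zero_iff_dvd.mp h2)
    exact Int.natCast_dvd.mpr h1
  · intro j hj
    apply prodF_dvd hnQ
    intro i hi
    rw [Nat.descFactorial_eq_prod_range]
    have h1 := hub i hi j hj
    rcases le_or_gt (t i j) (a j) with h2 | h2
    · refine dvd_trans ?_ (dvd_prod_of_mem (fun l => a j - l) (mem_range.mpr (Nat.lt_succ_of_le h1)))
      exact (Nat.modEq_iff_dvd' h2).mp (ha j i hi).symm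
    · have h3 : ∏ l ∈ range (u + 1), (a j - l) = 0 := by
        apply prod_eq_zero (i := a j) (mem_range.mpr (by omega))
        simp
      rw [h3]
      exact dvd_zero _

end

/-! ## Dioph closure lemmas -/

theorem dioph_univ {α : Type} : Dioph (Set.univ : Set (α → ℕ)) :=
  of_no_dummies _ 0 fun v => by simp

theorem dioph_list {α ι : Type} (l : List ι) (S : ι → Set (α → ℕ)) (h : ∀ j, Dioph (S j)) :
    Dioph {v | ∀ j ∈ l, v ∈ S j} := by
  induction l with
  | nil => exact ext dioph_univ fun v => by simp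
  | cons a l ih => exact ext (inter (h a) ih) fun v => by simp

/-- Existential quantification over one number. -/
theorem dioph_ex {α : Type} {P : (α → ℕ) → ℕ → Prop}
    (h : Dioph {w : Option α → ℕ | P (fun a => w (some a)) (w none)}) :
    Dioph {v : α → ℕ | ∃ x, P v x} :=
  ext (ex1_dioph h) fun _ => Iff.rfl

theorem bq_dioph {α : Type} {S : Set (Option α → ℕ)} (d : Dioph S) :
    Dioph {w : Option α → ℕ | ∀ i < w none, Option.elim' i (fun a => w (some a)) ∈ S} := by
  obtain ⟨β, p, hp⟩ := d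
  obtain ⟨J, G, dG, hc, hm⟩ := isPoly_data p.isPoly
  -- the big set
  let T : Set (Option α ⊕ (β ⊕ Fin 4) → ℕ) := {w |
    G (fun x => w (Sum.elim (fun o => Sum.inl o) (fun _ => Sum.inr (Sum.inr 0)) x))
      ≤ w (Sum.inr (Sum.inr 2)) ∧
    w (Sum.inr (Sum.inr 0)) ≤ w (Sum.inr (Sum.inr 2)) ∧
    w (Sum.inr (Sum.inr 3)) = prodF (w (Sum.inl none)) (w (Sum.inr (Sum.inr 2))).factorial ∧
    w (Sum.inr (Sum.inr 3)) ∣
      (w (Sum.inr (Sum.inr 1)) + 1) * (w (Sum.inr (Sum.inr 2))).factorial + 1 ∧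
    w (Sum.inr (Sum.inr 3)) ∣ (p (fun x => w (Sum.elim (fun o => Option.elim'
      (Sum.inr (Sum.inr 1)) (fun a => Sum.inl (some a)) o) (fun j => Sum.inr (Sum.inl j)) x))).natAbs ∧
    ∀ j ∈ J.toList, w (Sum.inr (Sum.inr 3)) ∣
      (w (Sum.elim (fun _ => Sum.inr (Sum.inr 3)) (fun j => Sum.inr (Sum.inl j)) j)).descFactorial
        (w (Sum.inr (Sum.inr 0)) + 1) ∨ ∃ o, j = Sum.inl o}
  have hT : Dioph T := by
    have dn := proj_dioph (Sum.inl none : Option α ⊕ (β ⊕ Fin 4))
    have du := proj_dioph (Sum.inr (Sum.inr 0) : Option α ⊕ (β ⊕ Fin 4))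
    have dc := proj_dioph (Sum.inr (Sum.inr 1) : Option α ⊕ (β ⊕ Fin 4))
    have dQ := proj_dioph (Sum.inr (Sum.inr 2) : Option α ⊕ (β ⊕ Fin 4))
    have dN := proj_dioph (Sum.inr (Sum.inr 3) : Option α ⊕ (β ⊕ Fin 4))
    refine inter (le_dioph ?_ dQ) (inter (le_dioph du dQ) (inter (eq_dioph dN ?_) (inter
      (dvd_dioph dN ?_) (inter (dvd_dioph dN ?_) (dioph_list _ _ ?_)))))
    · exact reindex_diophFn _ dG
    · exact prodF_dioph dn (factorial_dioph dQ) fun v => Nat.factorial_pos _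
    · exact add_dioph (mul_dioph (add_dioph dc (const_dioph 1)) (factorial_dioph dQ)) (const_dioph 1)
    · exact abs_poly_dioph (p.map _)
    · rintro (o | j)
      · exact ext dioph_univ fun v => by
          constructor
          · intro _
            exact Or.inr ⟨o, rfl⟩
          · intro _
            trivial
      · refine ext (dvd_dioph dN (descFactorial_dioph
          (proj_dioph (Sum.inr (Sum.inl j) : Option α ⊕ (β ⊕ Fin 4)))
          (add_dioph du (const_dioph 1)))) fun v => ?_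
        constructor
        · intro h
          exact Or.inl h
        · rintro (h | ⟨o, ho⟩)
          · exact h
          · exact absurd ho (by simp)
  refine ext (ex_dioph hT) fun w => ?_
  have e1 : ∀ (x : β ⊕ Fin 4 → ℕ), (fun y => (Sum.elim w x)
      (Sum.elim (fun o => Sum.inl o) (fun _ => Sum.inr (Sum.inr 0)) y))
      = pt (w none) (fun a => w (some a)) (fun _ : β => x (Sum.inr 0)) := by
    intro x
    funext y
    rcases y with (_ | a) | j <;> rfl
  have e2 : ∀ (x : β ⊕ Fin 4 → ℕ), (fun y => (Sum.elim w x) (Sum.elim (fun o => Option.elim'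
      (Sum.inr (Sum.inr 1)) (fun a => Sum.inl (some a)) o) (fun j => Sum.inr (Sum.inl j)) y))
      = pt (x (Sum.inr 1)) (fun a => w (some a)) (fun j : β => x (Sum.inl j)) := by
    intro x
    funext y
    rcases y with (_ | a) | j <;> rfl
  constructor
  · rintro ⟨x, hG, hu, hN, hcN, hf, hJ⟩ i hi
    rw [hp]
    rw [e1] at hG
    rw [e2] at hf
    refine bq_sound hc hm (fun a => w (some a)) (w none) (x (Sum.inr 0)) (x (Sum.inr 1))
      (x (Sum.inr 2)) (x (Sum.inr 3)) (fun j => x (Sum.inl j)) hG hu hN hcN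
      (Int.natCast_dvd.mpr hf) ?_ i hi
    intro j hj
    rcases hJ (Sum.inr j) (by simpa using hj) with h | ⟨o, ho⟩
    · exact h
    · exact absurd ho (by simp)
  · intro h
    have h' : ∀ i < w none, ∃ t : β → ℕ, p (pt i (fun a => w (some a)) t) = 0 := by
      intro i hi
      have := h i hi
      rw [hp] at this
      exact this
    obtain ⟨u, c, Q, N, a, hG, hu, hN, hcN, hf, hJ⟩ :=
      bq_complete (J := J) (G := G) hc (fun a => w (some a)) (w none) h'
    refine ⟨Sum.elim a ![u, c, Q, N], ?_⟩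
    refine ⟨?_, hu, hN, hcN, ?_, ?_⟩
    · rw [e1]
      exact hG
    · rw [e2]
      exact Int.natCast_dvd.mp hf
    · rintro (o | j) hj
      · exact Or.inr ⟨o, rfl⟩
      · exact Or.inl (hJ j (by simpa using hj))

/-- Bounded universal quantification with a Diophantine bound. -/
theorem dioph_ball {α : Type} {P : (α → ℕ) → ℕ → Prop} {g : (α → ℕ) → ℕ} (dg : DiophFn g)
    (h : Dioph {w : Option α → ℕ | P (fun a => w (some a)) (w none)}) :
    Dioph {v : α → ℕ | ∀ i < g v, P v i} := by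
  have h1 := bq_dioph h
  exact ext (diophFn_comp1 h1 dg) fun v => Iff.rfl

end Pool.Agent.MRDP
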