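import Mathlib

/-!
# Diophantine functions: binomial coefficients, factorials, products

Building on Matiyasevich's theorem `Dioph.pow_dioph` of Mathlib we show that binomial
coefficients, factorials and the products `∏_{i < n} (1 + (i+1) t)` are Diophantine.
-/

set_option autoImplicit false

namespace Pool.Agent.MRDP

open Finset Dioph

/-! ## Digits -/

theorem digit_sum_lt {u : ℕ} (a : ℕ → ℕ) (ha : ∀ m, a m < u) (N : ℕ) :
    ∑ m ∈ range N, a m * u ^ m < u ^ N := by
  induction N with
  | zero => simp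
  | succ N ih =>
    rw [sum_range_succ, pow_succ]
    have h1 : a N + 1 ≤ u := ha N
    have h2 : (a N + 1) * u ^ N ≤ u * u ^ N := Nat.mul_le_mul_right _ h1
    nlinarith

theorem digit_sum_split {u : ℕ} (a : ℕ → ℕ) (k N : ℕ) (h : k < N) :
    ∃ q, ∑ m ∈ range N, a m * u ^ m
      = ∑ m ∈ range k, a m * u ^ m + u ^ k * (a k + u * q) := by
  induction N, h using Nat.le_induction with
  | base => exact ⟨0, by rw [sum_range_succ]; ring⟩
  | succ N hN ih =>
    obtain ⟨q, hq⟩ := ih
    obtain ⟨d, rfl⟩ := Nat.exists_eq_add_of_lt (show k < N from hN)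
    refine ⟨q + a (k + d + 1) * u ^ d, ?_⟩
    rw [sum_range_succ, hq]
    ring

theorem digit_extract {u : ℕ} (a : ℕ → ℕ) (ha : ∀ m, a m < u) (k N : ℕ) (h : k < N) :
    (∑ m ∈ range N, a m * u ^ m) / u ^ k % u = a k := by
  obtain ⟨q, hq⟩ := digit_sum_split (u := u) a k N h
  have h0 : 0 < u := lt_of_le_of_lt (Nat.zero_le _) (ha 0)
  have h1 := digit_sum_lt a ha k
  rw [hq, Nat.add_mul_div_left _ _ (pow_pos h0 k), Nat.div_eq_of_lt h1, zero_add,
    Nat.add_mul_mod_self_left, Nat.mod_eq_of_lt (ha k)]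

theorem choose_formula (n k : ℕ) :
    n.choose k = (2 ^ n + 2) ^ n / (2 ^ n + 1) ^ k % (2 ^ n + 1) := by
  have ha : ∀ m, n.choose m < 2 ^ n + 1 := fun m =>
    Nat.lt_succ_of_le (Nat.choose_le_two_pow n m)
  have hsum : (2 ^ n + 2) ^ n = ∑ m ∈ range (n + 1), n.choose m * (2 ^ n + 1) ^ m := by
    have := add_pow (2 ^ n + 1) 1 n
    rw [show 2 ^ n + 2 = 2 ^ n + 1 + 1 from rfl, this]
    refine sum_congr rfl fun m _ => ?_
    rw [one_pow, mul_one, mul_comm]
    rfl
  rw [hsum]
  rcases Nat.lt_or_ge k (n + 1) with hk | hk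
  · exact (digit_extract _ ha k (n + 1) hk).symm
  · have h1 := digit_sum_lt _ ha (n + 1)
    have h2 : (2 ^ n + 1) ^ (n + 1) ≤ (2 ^ n + 1) ^ k := Nat.pow_le_pow_right (Nat.succ_pos _) hk
    rw [Nat.div_eq_of_lt (lt_of_lt_of_le h1 h2), Nat.zero_mod,
      Nat.choose_eq_zero_of_lt (by omega)]

section

variable {α : Type} {f g : (α → ℕ) → ℕ}

theorem choose_dioph (df : DiophFn f) (dg : DiophFn g) :
    DiophFn fun v => (f v).choose (g v) := by
  have h : DiophFn fun v =>
      (2 ^ f v + 2) ^ f v / (2 ^ f v + 1) ^ g v % (2 ^ f v + 1) := by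
    have h2 : DiophFn fun v => 2 ^ f v := pow_dioph (const_dioph 2) df
    exact mod_dioph (div_dioph (pow_dioph (add_dioph h2 (const_dioph 2)) df)
      (pow_dioph (add_dioph h2 (const_dioph 1)) dg)) (add_dioph h2 (const_dioph 1))
  have e : (fun v => (f v).choose (g v)) = fun v =>
      (2 ^ f v + 2) ^ f v / (2 ^ f v + 1) ^ g v % (2 ^ f v + 1) := by
    funext v
    exact choose_formula _ _
  rw [e]
  exact h

end

/-! ## Factorials -/

theorem bernoulli_nat (r m n : ℕ) (hm : m ≤ r) :
    r ^ (n + 1) ≤ (r - m) ^ (n + 1) + (n + 1) * m * r ^ n := by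
  obtain ⟨s, rfl⟩ := Nat.exists_eq_add_of_le hm
  rw [Nat.add_sub_cancel_left]
  induction n with
  | zero => simp; omega
  | succ n ih =>
    have h1 : s ^ (n + 1) ≤ (m + s) ^ (n + 1) := Nat.pow_le_pow_left (by omega) _
    have h2 := Nat.mul_le_mul_left (m + s) ih
    have h3 := Nat.mul_le_mul_left m h1
    calc (m + s) ^ (n + 1 + 1) = (m + s) * (m + s) ^ (n + 1) := by ring
      _ ≤ (m + s) * (s ^ (n + 1) + (n + 1) * m * (m + s) ^ n) := h2
      _ = s ^ (n + 1 + 1) + m * s ^ (n + 1) + (n + 1) * m * (m + s) ^ (n + 1) := by ring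
      _ ≤ s ^ (n + 1 + 1) + m * (m + s) ^ (n + 1) + (n + 1) * m * (m + s) ^ (n + 1) := by
          omega
      _ = s ^ (n + 1 + 1) + (n + 1 + 1) * m * (m + s) ^ (n + 1) := by ring

/-- the size of the base used to compute the factorial of `n` -/
def bigR (n : ℕ) : ℕ := n ^ 2 * (n ^ n + 1) + 1

theorem factorial_formula (n : ℕ) :
    n.factorial = bigR n ^ n / (bigR n).choose n := by
  rcases Nat.eq_zero_or_pos n with rfl | hn
  · simp [bigR]
  set r := bigR n with hr
  have hnn : n ≤ n ^ n := by
    calc n = n ^ 1 := (pow_one n).symm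
      _ ≤ n ^ n := Nat.pow_le_pow_right hn hn
  have hrn : n < r := by
    rw [hr, bigR]
    nlinarith [hnn, hn]
  have hf : n.factorial ≤ n ^ n := Nat.factorial_le_pow n
  have hC : 0 < r.choose n := Nat.choose_pos hrn.le
  have hD := Nat.descFactorial_eq_factorial_mul_choose r n
  symm
  rw [Nat.div_eq_iff hC]
  have h1 : n.factorial * r.choose n ≤ r ^ n := by
    rw [← hD]
    exact Nat.descFactorial_le_pow r n
  refine ⟨h1, ?_⟩
  have hD2 := Nat.pow_sub_le_descFactorial r n
  obtain ⟨m, rfl⟩ := Nat.exists_eq_succ_of_ne_zero hn.ne'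
  have e : r + 1 - m.succ = r - m := by omega
  rw [e, hD] at hD2
  have hb := bernoulli_nat r m m (by omega)
  have hFpos : 0 < (m+1).factorial := Nat.factorial_pos _
  -- the main inequality
  have key : ((m+1).factorial + 1) * ((m + 1) * m * r ^ m) < r * r ^ m := by
    have h2 : ((m+1).factorial + 1) * ((m + 1) * m) < r := by
      have h3 : ((m+1).factorial + 1) * ((m + 1) * m) ≤ ((m+1) ^ (m+1) + 1) * ((m + 1) * (m+1)) :=
        Nat.mul_le_mul (by simpa using hf) (Nat.mul_le_mul_left _ (by omega))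
      rw [hr, bigR]
      have : (m+1) ^ 2 * ((m+1) ^ (m+1) + 1) = ((m+1) ^ (m+1) + 1) * ((m + 1) * (m+1)) := by ring
      rw [Nat.succ_eq_add_one, this]
      omega
    have hrp : 0 < r ^ m := pow_pos (by omega) m
    calc ((m+1).factorial + 1) * ((m + 1) * m * r ^ m)
        = (((m+1).factorial + 1) * ((m + 1) * m)) * r ^ m := by ring
      _ < r * r ^ m := Nat.mul_lt_mul_of_pos_right h2 hrp
  -- n! r^n < (n!+1) n! C
  have h4 : (m+1).factorial * r ^ (m+1) < ((m+1).factorial + 1) * ((m+1).factorial * r.choose (m+1)) := by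
    have h5 := Nat.mul_le_mul_left ((m+1).factorial + 1) hb
    have h6 := Nat.mul_le_mul_left ((m+1).factorial + 1) hD2
    simp only [Nat.succ_eq_add_one] at h6
    have h7 : r ^ (m+1) = r * r ^ m := by ring
    rw [Nat.mul_add] at h5
    nlinarith
  have h8 : r ^ (m+1) < ((m+1).factorial + 1) * r.choose (m+1) := by
    have : (m+1).factorial * r ^ (m+1)
        < (m+1).factorial * (((m+1).factorial + 1) * r.choose (m+1)) := by
      calc _ < ((m+1).factorial + 1) * ((m+1).factorial * r.choose (m+1)) := h4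
        _ = _ := by ring
    exact Nat.lt_of_mul_lt_mul_left this
  simp only [Nat.succ_eq_add_one] at *
  have : ((m+1).factorial + 1) * r.choose (m+1) = (m+1).factorial * r.choose (m+1) + r.choose (m+1) := by
    ring
  omega

section

variable {α : Type} {f g : (α → ℕ) → ℕ}

theorem bigR_dioph (df : DiophFn f) : DiophFn fun v => bigR (f v) :=
  add_dioph (mul_dioph (pow_dioph df (const_dioph 2))
    (add_dioph (pow_dioph df df) (const_dioph 1))) (const_dioph 1)

theorem factorial_dioph (df : DiophFn f) : DiophFn fun v => (f v).factorial := by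
  have e : (fun v => (f v).factorial) = fun v =>
      bigR (f v) ^ (f v) / (bigR (f v)).choose (f v) := by
    funext v
    exact factorial_formula _
  rw [e]
  exact div_dioph (pow_dioph (bigR_dioph df) df) (choose_dioph (bigR_dioph df) df)

theorem descFactorial_dioph (df : DiophFn f) (dg : DiophFn g) :
    DiophFn fun v => (f v).descFactorial (g v) := by
  have e : (fun v => (f v).descFactorial (g v)) = fun v =>
      (g v).factorial * (f v).choose (g v) := by
    funext v
    exact Nat.descFactorial_eq_factorial_mul_choose _ _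
  rw [e]
  exact mul_dioph (factorial_dioph dg) (choose_dioph df dg)

end

/-! ## Products -/

/-- The product `∏_{i < n} (1 + (i+1) t)`. -/
def prodF (n t : ℕ) : ℕ := ∏ i ∈ range n, ((i + 1) * t + 1)

theorem prodF_le (n t : ℕ) : prodF n t ≤ (1 + n * t) ^ n := by
  unfold prodF
  calc ∏ i ∈ range n, ((i + 1) * t + 1) ≤ ∏ i ∈ range n, (1 + n * t) := by
        refine prod_le_prod' fun i hi => ?_
        have : i + 1 ≤ n := mem_range.mp hi
        have := Nat.mul_le_mul_right t this
        omega
    _ = (1 + n * t) ^ n := by simp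

/-- modulus -/
def modM (n t : ℕ) : ℕ := t * (1 + n * t) ^ n + 1

/-- inverse of `t` modulo `modM n t` -/
def invQ (n t : ℕ) : ℕ := (t - 1) * (1 + n * t) ^ n + 1

theorem prodF_formula (n t : ℕ) (ht : 0 < t) :
    prodF n t = t ^ n * (n.factorial * (invQ n t + n).choose n) % modM n t := by
  have h1 : prodF n t < modM n t := by
    have h2 := prodF_le n t
    have h3 : (1 + n * t) ^ n ≤ t * (1 + n * t) ^ n := Nat.le_mul_of_pos_left _ ht
    unfold modM
    omega
  have h4 : invQ n t * t ≡ 1 [MOD modM n t] := by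
    obtain ⟨s, rfl⟩ := Nat.exists_eq_succ_of_ne_zero ht.ne'
    have : invQ n s.succ * s.succ = 1 + modM n s.succ * s := by
      simp only [invQ, modM, Nat.succ_eq_add_one, Nat.add_sub_cancel]
      ring
    rw [this]
    unfold Nat.ModEq
    rw [Nat.add_mul_mod_self_left]
  have h5 : prodF n t ≡ t ^ n * (n.factorial * (invQ n t + n).choose n) [MOD modM n t] := by
    rw [← Nat.ascFactorial_eq_factorial_mul_choose, Nat.ascFactorial_eq_prod_range]
    have : t ^ n = ∏ i ∈ range n, t := by simp
    rw [this, ← prod_mul_distrib]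
    unfold prodF
    generalize range n = S
    induction S using Finset.induction_on with
    | empty => simp; rfl
    | insert a S ha ih =>
      rw [prod_insert ha, prod_insert ha]
      refine Nat.ModEq.mul ?_ ih
      calc (a + 1) * t + 1 ≡ (a + 1) * t + invQ n t * t [MOD modM n t] :=
            Nat.ModEq.add_left _ h4.symm
        _ = t * (invQ n t + 1 + a) := by ring
  rw [← Nat.mod_eq_of_lt h1]
  exact h5

section

variable {α : Type} {f g : (α → ℕ) → ℕ}

theorem prodF_dioph (df : DiophFn f) (dg : DiophFn g) (hg : ∀ v, 0 < g v) :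
    DiophFn fun v => prodF (f v) (g v) := by
  have e : (fun v => prodF (f v) (g v)) = fun v =>
      (g v) ^ (f v) * ((f v).factorial * (((g v - 1) * (1 + f v * g v) ^ (f v) + 1) + f v).choose (f v))
        % (g v * (1 + f v * g v) ^ (f v) + 1) := by
    funext v
    exact prodF_formula _ _ (hg v)
  rw [e]
  have hP : DiophFn fun v => (1 + f v * g v) ^ (f v) :=
    pow_dioph (add_dioph (const_dioph 1) (mul_dioph df dg)) df
  exact mod_dioph (mul_dioph (pow_dioph dg df) (mul_dioph (factorial_dioph df)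
    (choose_dioph (add_dioph (add_dioph (mul_dioph (sub_dioph dg (const_dioph 1)) hP)
      (const_dioph 1)) df) df))) (add_dioph (mul_dioph dg hP) (const_dioph 1))

end

end Pool.Agent.MRDP
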