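import Pool.Agent.MRDP.BQ

/-!
# The theorem of Matiyasevich, Robinson, Davis and Putnam

Graphs of computable functions on the natural numbers are Diophantine.
-/

set_option autoImplicit false

namespace Pool.Agent.MRDP

open Dioph

section

variable {α : Type}

theorem dioph_or {P Q : (α → ℕ) → Prop} (h1 : Dioph {v | P v}) (h2 : Dioph {v | Q v}) :
    Dioph {v | P v ∨ Q v} := union h1 h2

theorem dioph_and {P Q : (α → ℕ) → Prop} (h1 : Dioph {v | P v}) (h2 : Dioph {v | Q v}) :
    Dioph {v | P v ∧ Q v} := inter h1 h2

/-- weaken a Diophantine function to one more variable -/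
theorem diophFn_weak {f : (α → ℕ) → ℕ} (df : DiophFn f) :
    DiophFn fun w : Option α → ℕ => f (fun a => w (some a)) :=
  reindex_diophFn some df

theorem var0 : DiophFn fun w : Option α → ℕ => w none := proj_dioph none

/-- A function is Diophantine if its graph is definable. -/
theorem diophFn_of_graph {f : (α → ℕ) → ℕ} {P : (α → ℕ) → ℕ → Prop}
    (h : ∀ w x, f w = x ↔ P w x)
    (d : Dioph {w : Option α → ℕ | P (fun a => w (some a)) (w none)}) : DiophFn f :=
  ext d fun _ => (h _ _).symm

end

/-- The pairing function is Diophantine. -/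
theorem pair_dioph {α : Type} {f g : (α → ℕ) → ℕ} (df : DiophFn f) (dg : DiophFn g) :
    DiophFn fun v => Nat.pair (f v) (g v) := by
  refine diophFn_of_graph (P := fun v x =>
    (f v < g v ∧ x = g v * g v + f v) ∨ (g v ≤ f v ∧ x = f v * f v + f v + g v)) ?_ ?_
  · intro v x
    unfold Nat.pair
    split_ifs with h
    · constructor
      · intro e
        exact Or.inl ⟨h, e.symm⟩
      · rintro (⟨_, e⟩ | ⟨h', _⟩)
        · exact e.symm
        · omega
    · constructor
      · intro e
        exact Or.inr ⟨by omega, e.symm⟩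
      · rintro (⟨h', _⟩ | ⟨_, e⟩)
        · omega
        · exact e.symm
  · have df' := diophFn_weak df
    have dg' := diophFn_weak dg
    exact dioph_or (dioph_and (lt_dioph df' dg') (eq_dioph var0
      (add_dioph (mul_dioph dg' dg') df'))) (dioph_and (le_dioph dg' df') (eq_dioph var0
      (add_dioph (add_dioph (mul_dioph df' df') df') dg')))

theorem unpair1_dioph {α : Type} {f : (α → ℕ) → ℕ} (df : DiophFn f) :
    DiophFn fun v => (f v).unpair.1 := by
  refine diophFn_of_graph (P := fun v x => ∃ y, Nat.pair x y = f v) ?_ ?_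
  · intro v x
    constructor
    · intro e
      exact ⟨(f v).unpair.2, by rw [← e, Nat.pair_unpair]⟩
    · rintro ⟨y, hy⟩
      rw [← hy, Nat.unpair_pair]
  · exact dioph_ex (eq_dioph (pair_dioph (diophFn_weak var0) var0)
      (diophFn_weak (diophFn_weak df)))

theorem unpair2_dioph {α : Type} {f : (α → ℕ) → ℕ} (df : DiophFn f) :
    DiophFn fun v => (f v).unpair.2 := by
  refine diophFn_of_graph (P := fun v x => ∃ y, Nat.pair y x = f v) ?_ ?_
  · intro v x
    constructor
    · intro e
      exact ⟨(f v).unpair.1, by rw [← e, Nat.pair_unpair]⟩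
    · rintro ⟨y, hy⟩
      rw [← hy, Nat.unpair_pair]
  · exact dioph_ex (eq_dioph (pair_dioph var0 (diophFn_weak var0))
      (diophFn_weak (diophFn_weak df)))

theorem beta_dioph {α : Type} {f g : (α → ℕ) → ℕ} (df : DiophFn f) (dg : DiophFn g) :
    DiophFn fun v => Nat.beta (f v) (g v) :=
  mod_dioph (unpair1_dioph df) (add_dioph (mul_dioph (add_dioph dg (const_dioph 1))
    (unpair2_dioph df)) (const_dioph 1))

theorem exists_beta (s : ℕ → ℕ) (n : ℕ) : ∃ c, ∀ i ≤ n, Nat.beta c i = s i := by
  refine ⟨Nat.unbeta ((List.range (n + 1)).map s), fun i hi => ?_⟩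
  have := Nat.beta_unbeta_coe ((List.range (n + 1)).map s) ⟨i, by simpa using Nat.lt_succ_of_le hi⟩
  simpa using this

/-- The graph of a (possibly undefined) function is Diophantine. -/
def DG (f : ℕ →. ℕ) : Prop := Dioph {v : Vector3 ℕ 2 | v (Fin2.fs Fin2.fz) ∈ f (v Fin2.fz)}

theorem DG.comp {f : ℕ →. ℕ} (h : DG f) {α : Type} {F G : (α → ℕ) → ℕ}
    (dF : DiophFn F) (dG : DiophFn G) : Dioph {v | G v ∈ f (F v)} :=
  dioph_comp2 dF dG (S := fun x y => y ∈ f x) h

theorem dg_of {f : ℕ →. ℕ}
    (h : ∀ {α : Type} {F G : (α → ℕ) → ℕ}, DiophFn F → DiophFn G → Dioph {v | G v ∈ f (F v)}) :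
    DG f := h (proj_dioph _) (proj_dioph _)

theorem partrec_dioph {f : ℕ →. ℕ} (hf : Nat.Partrec f) : DG f := by
  induction hf with
  | zero =>
    refine dg_of fun {α F G} dF dG => ?_
    refine ext (eq_dioph dG (const_dioph 0)) fun v => ?_
    change G v = 0 ↔ G v ∈ (Part.some 0)
    rw [Part.mem_some_iff]
  | succ =>
    refine dg_of fun {α F G} dF dG => ?_
    refine ext (eq_dioph dG (add_dioph dF (const_dioph 1))) fun v => ?_
    change G v = F v + 1 ↔ G v ∈ (Part.some (F v + 1))
    rw [Part.mem_some_iff]
  | left =>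
    refine dg_of fun {α F G} dF dG => ?_
    refine ext (eq_dioph dG (unpair1_dioph dF)) fun v => ?_
    change G v = (F v).unpair.1 ↔ G v ∈ (Part.some (F v).unpair.1)
    rw [Part.mem_some_iff]
  | right =>
    refine dg_of fun {α F G} dF dG => ?_
    refine ext (eq_dioph dG (unpair2_dioph dF)) fun v => ?_
    change G v = (F v).unpair.2 ↔ G v ∈ (Part.some (F v).unpair.2)
    rw [Part.mem_some_iff]
  | @pair f g _ _ ihf ihg =>
    refine dg_of fun {α F G} dF dG => ?_
    refine ext (dioph_and (ihf.comp dF (unpair1_dioph dG)) (ihg.comp dF (unpair2_dioph dG)))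
      fun v => ?_
    simp only [Set.mem_ofPred_eq, Seq.seq, Part.mem_bind_iff, Part.map_eq_map, Part.mem_map_iff]
    constructor
    · rintro ⟨h1, h2⟩
      exact ⟨Nat.pair (G v).unpair.1, ⟨_, h1, rfl⟩, _, h2, Nat.pair_unpair _⟩
    · rintro ⟨_, ⟨a, ha, rfl⟩, b, hb, e⟩
      rw [← e, Nat.unpair_pair]
      exact ⟨ha, hb⟩
  | @comp f g _ _ ihf ihg =>
    refine dg_of fun {α F G} dF dG => ?_
    refine ext (dioph_ex (P := fun v x => x ∈ g (F v) ∧ G v ∈ f x)
      (dioph_and (ihg.comp (diophFn_weak dF) var0) (ihf.comp var0 (diophFn_weak dG))))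
      fun v => ?_
    exact Part.mem_bind_iff.symm
  | @prec f g _ _ ihf ihg =>
    refine dg_of fun {α F G} dF dG => ?_
    -- code `c` of the sequence of values
    refine ext (dioph_ex (P := fun v c =>
      Nat.beta c 0 ∈ f (F v).unpair.1 ∧ Nat.beta c (F v).unpair.2 = G v ∧
      ∀ i < (F v).unpair.2, Nat.beta c (i + 1) ∈
        g (Nat.pair (F v).unpair.1 (Nat.pair i (Nat.beta c i)))) ?_) fun v => ?_
    · have dF' := diophFn_weak dF
      have dG' := diophFn_weak dG
      refine dioph_and (ihf.comp (unpair1_dioph dF') (beta_dioph var0 (const_dioph 0)))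
        (dioph_and (eq_dioph (beta_dioph var0 (unpair2_dioph dF')) dG')
        (dioph_ball (P := fun w i => Nat.beta (w none) (i + 1) ∈
          g (Nat.pair (F (fun a => w (some a))).unpair.1 (Nat.pair i (Nat.beta (w none) i))))
          (unpair2_dioph dF') ?_))
      have dc : DiophFn fun w : Option (Option α) → ℕ => w (some none) := diophFn_weak var0
      exact ihg.comp (pair_dioph (unpair1_dioph (diophFn_weak dF')) (pair_dioph var0
        (beta_dioph dc var0))) (beta_dioph dc (add_dioph var0 (const_dioph 1)))
    · simp only [Set.mem_ofPred_eq, Nat.unpaired]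
      generalize (F v).unpair.1 = a
      generalize (F v).unpair.2 = n
      generalize G v = z
      constructor
      · rintro ⟨c, h0, hn, hs⟩
        have key : ∀ k ≤ n, Nat.beta c k ∈ (Nat.rec (f a)
            (fun y IH => IH.bind fun i => g (Nat.pair a (Nat.pair y i))) k : Part ℕ) := by
          intro k hk
          induction k with
          | zero => exact h0
          | succ k ih => exact Part.mem_bind_iff.mpr ⟨_, ih (by omega), hs k (by omega)⟩
        rw [← hn]
        exact key n le_rfl
      · intro h
        -- values along the recursion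
        have key : ∀ k, ∀ z ∈ (Nat.rec (f a)
            (fun y IH => IH.bind fun i => g (Nat.pair a (Nat.pair y i))) k : Part ℕ),
            ∃ s : ℕ → ℕ, s 0 ∈ f a ∧ s k = z ∧
              ∀ i < k, s (i + 1) ∈ g (Nat.pair a (Nat.pair i (s i))) := by
          intro k
          induction k with
          | zero =>
            intro z hz
            exact ⟨fun _ => z, hz, rfl, fun i hi => absurd hi (by omega)⟩
          | succ k ih =>
            intro z hz
            obtain ⟨y, hy, hz⟩ := Part.mem_bind_iff.mp hz
            obtain ⟨s, s0, sk, hs⟩ := ih y hy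
            refine ⟨fun i => if i ≤ k then s i else z, ?_, ?_, ?_⟩
            · simpa using s0
            · simp
            · intro i hi
              rcases Nat.lt_or_ge i k with h | h
              · simp only [show i + 1 ≤ k from h, show i ≤ k by omega, if_true]
                exact hs i h
              · have : i = k := by omega
                subst this
                simp only [le_refl, if_true, show ¬ (i + 1 ≤ i) by omega, if_false]
                rw [sk]
                exact hz
        obtain ⟨s, s0, sk, hs⟩ := key n z h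
        obtain ⟨c, hc⟩ := exists_beta s n
        refine ⟨c, ?_, ?_, ?_⟩
        · rw [hc 0 (by omega)]
          exact s0
        · rw [hc n le_rfl]
          exact sk
        · intro i hi
          rw [hc (i + 1) (by omega), hc i (by omega)]
          exact hs i hi
  | @rfind f _ ih =>
    refine dg_of fun {α F G} dF dG => ?_
    refine ext (dioph_and (ih.comp (pair_dioph dF dG) (const_dioph 0))
      (dioph_ball (P := fun v i => ∃ m, m ∈ f (Nat.pair (F v) i) ∧ m ≠ 0) dG
        (dioph_ex (P := fun w m => m ∈ f (Nat.pair (F (fun a => w (some a))) (w none)) ∧ m ≠ 0)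
          (dioph_and (ih.comp (pair_dioph (diophFn_weak (diophFn_weak dF)) (diophFn_weak var0))
            var0) (ne_dioph var0 (const_dioph 0)))))) fun v => ?_
    change (0 ∈ f (Nat.pair (F v) (G v)) ∧ ∀ i < G v, ∃ m, m ∈ f (Nat.pair (F v) i) ∧ m ≠ 0) ↔
      G v ∈ Nat.rfind (fun n => (f (Nat.pair (F v) n)).map fun m => decide (m = 0))
    refine Iff.trans ?_ Nat.mem_rfind.symm
    generalize F v = a
    generalize G v = z
    constructor
    · rintro ⟨h1, h2⟩
      refine ⟨(Part.mem_map_iff _).mpr ⟨0, h1, by simp⟩, fun {m} hm => ?_⟩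
      obtain ⟨y, hy, hy0⟩ := h2 m hm
      exact (Part.mem_map_iff _).mpr ⟨y, hy, by simpa using hy0⟩
    · rintro ⟨h1, h2⟩
      obtain ⟨y, hy, hy0⟩ := (Part.mem_map_iff _).mp h1
      have : y = 0 := by simpa using hy0
      subst this
      refine ⟨hy, fun m hm => ?_⟩
      obtain ⟨y, hy, hy0⟩ := (Part.mem_map_iff _).mp (h2 hm)
      exact ⟨y, hy, by simpa using hy0⟩

/-- **MRDP**: the domain of a computable function of one variable is Diophantine. -/
theorem dom_dioph_of_partrec {f : ℕ →. ℕ} (hf : Partrec f) :
    Dioph {v : Unit → ℕ | (f (v ())).Dom} := by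
  have h := partrec_dioph (Partrec.nat_iff.mp hf)
  refine ext (dioph_ex (P := fun v y => y ∈ f (v ())) (h.comp
    (diophFn_weak (proj_dioph ())) var0)) fun v => ?_
  exact Part.dom_iff_mem.symm

/-- **MRDP**: every recursively enumerable set of natural numbers is Diophantine. -/
theorem dioph_of_re {p : ℕ → Prop} (hp : REPred p) : Dioph {v : Unit → ℕ | p (v ())} := by
  have h : Partrec fun n : ℕ => (Part.assert (p n) fun _ => Part.some (0 : ℕ)) := by
    have := hp.map (g := fun _ _ => (0 : ℕ)) (Computable.const 0)
    refine this.of_eq fun n => ?_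
    apply Part.ext
    intro b
    simp [Part.mem_assert_iff, eq_comm]
  refine ext (dom_dioph_of_partrec h) fun v => ?_
  simp [Part.assert]

/-- The diagonal halting set is recursively enumerable and not computable. -/
def haltSet (n : ℕ) : Prop := (Nat.Partrec.Code.eval (Denumerable.ofNat Nat.Partrec.Code n) 0).Dom

theorem haltSet_not_computable : ¬ ComputablePred haltSet := by
  intro h
  apply ComputablePred.halting_problem 0
  have := ComputablePred.computable_of_manyOneReducible
    (p := fun c : Nat.Partrec.Code => (Nat.Partrec.Code.eval c 0).Dom) (q := haltSet)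
    ⟨Encodable.encode, Computable.encode, fun c => by simp [haltSet]⟩ h
  exact this

theorem haltSet_dioph : Dioph {v : Unit → ℕ | haltSet (v ())} :=
  dom_dioph_of_partrec (f := fun n =>
    Nat.Partrec.Code.eval (Denumerable.ofNat Nat.Partrec.Code n) 0)
    (Nat.Partrec.Code.eval_part.comp (Computable.ofNat _) (Computable.const 0))

end Pool.Agent.MRDP
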